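import Pool.Agent.L7h89.PW.Krc

/-!
# Project PW (owner helper85): the Jordan blocks of the tensor powers of an operator, part D
-/

set_option autoImplicit false

namespace Pool.Agent.L7h89.PW.Kern

open TensorProduct Pool.Agent.L7h65.RL Finset

universe v w w'

section ss

variable {K : Type v} [Field K] {U : Type w} [AddCommGroup U] [Module K U] {E : U →ₗ[K] U}
  {ι : Type} [Fintype ι] (D : Dc E ι)

lemma p_aeval (P : Polynomial K) (l : ι) (y : U) :
    D.p l (Polynomial.aeval E P y) = Polynomial.aeval (D.F l) P (D.p l y) := by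
  induction P using Polynomial.induction_on' with
  | add p q hp hq => simp only [map_add, LinearMap.add_apply, hp, hq]
  | monomial n a =>
    rw [Polynomial.aeval_monomial, Polynomial.aeval_monomial, Module.End.mul_apply,
      Module.End.mul_apply, Module.algebraMap_end_apply, Module.algebraMap_end_apply, map_smul]
    congr 1
    exact (pow_int (D.p l) E (D.F l) (fun x => (D.pE l x).symm) n y).symm

/-- an operator which is a scalar on all generalised eigenspaces is semisimple -/
lemma ss_of [DecidableEq ι] (h : ∀ l, D.F l = D.a l • 1) : Module.End.IsSemisimple E := by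
  have hsq : Squarefree (∏ l, (Polynomial.X - Polynomial.C (D.a l))) :=
    ((Polynomial.separable_prod_X_sub_C_iff (f := D.a)).2 D.inj).squarefree
  refine Module.End.isSemisimple_of_squarefree_aeval_eq_zero hsq ?_
  apply LinearMap.ext
  intro y
  rw [← D.sum (Polynomial.aeval E (∏ l, (Polynomial.X - Polynomial.C (D.a l))) y)]
  refine sum_eq_zero fun l _ => ?_
  rw [p_aeval, h l]
  have e1 : (D.a l • (1 : D.Z l →ₗ[K] D.Z l)) = algebraMap K (Module.End K (D.Z l)) (D.a l) := by
    rw [Algebra.algebraMap_eq_smul_one]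
  have e2 : Polynomial.aeval (D.a l) (∏ l, (Polynomial.X - Polynomial.C (D.a l))) = 0 := by
    rw [Polynomial.coe_aeval_eq_eval, Polynomial.eval_prod]
    exact prod_eq_zero (mem_univ l) (by simp)
  rw [e1, Polynomial.aeval_algebraMap_apply, e2, map_zero]
  simp

end ss

theorem kern : ∀ (K : Type v) [Field K] [IsAlgClosed K] [CharZero K] (V : ℕ → Type w)
    [∀ n, AddCommGroup (V n)] [∀ n, Module K (V n)] [∀ n, Module.Finite K (V n)]
    (e : ∀ n, (V 0 ⊗[K] V n) ≃ₗ[K] V (n + 1)) (E : ∀ n, V n →ₗ[K] V n),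
  (∀ n, E (n + 1) ∘ₗ (e n).toLinearMap =
    (e n).toLinearMap ∘ₗ TensorProduct.map (E 0) (E n)) →
  Function.Injective (E 0) →
  ∃ (ι : Type) (_ : Fintype ι) (l : ι → K) (h : ι → ℤ),
    Fintype.card ι = Module.finrank K (V 0) ∧
    (∀ μ, (∃ i, l i = μ) ↔ (Module.End.HasEigenvalue (E 0) μ)) ∧
    (¬ Module.End.IsSemisimple (E 0) → ∃ i j, l i = l j ∧ h i ≠ h j) ∧
    (∀ (c : K) (j : ℤ), (Set.ncard {i | l i = c ∧ h i = j}) =
      (Set.ncard {i | l i = c ∧ h i = -j})) ∧
    (∀ c c' : K, (∀ m : ℕ, Module.finrank K (LinearMap.ker ((E 0 - c • 1) ^ m)) =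
        Module.finrank K (LinearMap.ker ((E 0 - c' • 1) ^ m))) →
      ∀ j : ℤ, (Set.ncard {i | l i = c ∧ h i = j}) =
        (Set.ncard {i | l i = c' ∧ h i = j})) ∧
    ∀ (n : ℕ) (c : K), Module.finrank K (LinearMap.ker (E n - c • 1)) =
      Set.ncard {f : Fin (n + 1) → ι |
        ∏ k, l (f k) = c ∧ (∑ k, h (f k) = 0 ∨ ∑ k, h (f k) = 1)} := by
  classical
  intro K _ _ _ V _ _ _ e E he hE
  obtain ⟨d, ⟨D⟩⟩ := exists_Dc (E 0)
  have ha := a_ne D hE
  have hnc : ∀ {α : Type} [Fintype α] (p : α → Prop) [DecidablePred p],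
      Set.ncard {x | p x} = (univ.filter p).card := by
    intro α _ p _
    rw [← Set.ncard_coe_finset]
    congr 1
    ext x
    simp
  -- the characters
  have key1 : ∀ (n : ℕ) (c : K), c ≠ 0 → ∀ j, Af (E n - c • 1) j = ∑ f : Fin (n + 1) → Ix D,
      if ∏ k, D.a (f k).1 = c then hh (j - ∑ k, wt D (f k)) else 0 := by
    intro n
    induction n with
    | zero =>
      intro c hc j
      rw [base D ha]
      refine (Fintype.sum_equiv (Equiv.funUnique (Fin 1) (Ix D)) _ _ fun f => ?_).symm
      simp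
    | succ n ih =>
      intro c hc j
      obtain ⟨d', ⟨D'⟩⟩ := exists_Dc (E n)
      have h1 : Af (E (n + 1) - c • 1) = Af (TensorProduct.map (E 0) (E n) - c • 1) := by
        refine Af_conj (e n) _ _ fun x => ?_
        have := LinearMap.congr_fun (he n) x
        simp only [LinearMap.comp_apply, LinearEquiv.coe_coe] at this
        rw [LinearMap.sub_apply, LinearMap.sub_apply, this, map_sub, LinearMap.smul_apply,
          LinearMap.smul_apply, map_smul, Module.End.one_apply, Module.End.one_apply]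
      rw [h1, key D D' ha hc, op_sum D ha (fun l => Af (E n - (c / D.a l) • 1))]
      have h2 : ∀ x : Ix D, Af (E n - (c / D.a x.1) • 1) (j - wt D x) =
          ∑ f : Fin (n + 1) → Ix D, if ∏ k, D.a (f k).1 = c / D.a x.1 then
            hh (j - wt D x - ∑ k, wt D (f k)) else 0 := fun x =>
        ih _ (div_ne_zero hc (ha _)) _
      rw [sum_congr rfl fun x _ => h2 x, ← Fintype.sum_prod_type']
      refine Fintype.sum_equiv (Fin.consEquiv (fun _ => Ix D)) _ _ fun x => ?_
      have e1 : ∏ k, D.a ((Fin.cons x.1 x.2 : Fin (n + 1 + 1) → Ix D) k).1 =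
          D.a x.1.1 * ∏ k, D.a (x.2 k).1 := by
        rw [Fin.prod_univ_succ]
        simp
      have e2 : ∑ k, wt D ((Fin.cons x.1 x.2 : Fin (n + 1 + 1) → Ix D) k) =
          wt D x.1 + ∑ k, wt D (x.2 k) := by
        rw [Fin.sum_univ_succ]
        simp
      show (if ∏ k, D.a (x.2 k).1 = c / D.a x.1.1 then
          hh (j - wt D x.1 - ∑ k, wt D (x.2 k)) else 0) =
        if ∏ k, D.a ((Fin.cons x.1 x.2 : Fin (n + 1 + 1) → Ix D) k).1 = c then
          hh (j - ∑ k, wt D ((Fin.cons x.1 x.2 : Fin (n + 1 + 1) → Ix D) k)) else 0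
      rw [e1, e2]
      refine if_congr ?_ ?_ rfl
      · rw [eq_div_iff (ha _), mul_comm]
      · congr 1
        ring
  -- the eigenvalues are not zero
  have hb : ∀ n, Function.Bijective (E n) := by
    intro n
    induction n with
    | zero => exact ⟨hE, LinearMap.injective_iff_surjective.1 hE⟩
    | succ n ih =>
      have hE0 : Function.Bijective (E 0) := ⟨hE, LinearMap.injective_iff_surjective.1 hE⟩
      have h1 : Function.Bijective (TensorProduct.map (E 0) (E n)) :=
        (TensorProduct.congr (LinearEquiv.ofBijective (E 0) hE0)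
          (LinearEquiv.ofBijective (E n) ih)).bijective
      have h2 : (E (n + 1) : V (n + 1) → V (n + 1)) = (e n) ∘ (TensorProduct.map (E 0) (E n)) ∘
          (e n).symm := by
        funext y
        obtain ⟨x, rfl⟩ := (e n).surjective y
        have := LinearMap.congr_fun (he n) x
        simp only [LinearMap.comp_apply, LinearEquiv.coe_coe] at this
        rw [this]
        simp
      rw [h2]
      exact (e n).bijective.comp (h1.comp (e n).symm.bijective)
  refine ⟨Ix D, inferInstance, fun x => D.a x.1, wt D, ?_, ?_, ?_, ?_, ?_, ?_⟩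
  · -- the number of the weights
    have h1 := sumI D ha (fun _ _ _ => 1)
    rw [sum_const, card_univ, nsmul_eq_mul, mul_one] at h1
    have h2 : (Fintype.card (Ix D) : ℤ) = Module.finrank K (V 0) := by
      rw [h1, finrank_Dc D]
      push_cast
      refine sum_congr rfl fun l _ => ?_
      rw [← nb_sum D ha l]
      refine sum_congr rfl fun m _ => ?_
      simp
    exact_mod_cast h2
  · -- the eigenvalues
    intro μ
    rw [eig_iff D]
    constructor
    · rintro ⟨x, hx⟩
      exact ⟨x.1, hx⟩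
    · rintro ⟨l, hl⟩
      have h1 := nb_sum D ha l
      have h2 : 0 < Module.finrank K (D.Z l) := by
        have := D.nt l
        exact Module.finrank_pos
      obtain ⟨m, hm, hm0⟩ := exists_ne_zero_of_sum_ne_zero (by
        rw [h1]
        exact_mod_cast h2.ne' : ∑ m ∈ Icc 1 (Module.finrank K (D.Z l)),
          nb (D.F l - D.a l • 1) m * m ≠ 0)
      have h3 := nb_nonneg D ha l (mem_Icc.1 hm).1
      have h4 : nb (D.F l - D.a l • 1) m ≠ 0 := left_ne_zero_of_mul hm0
      refine ⟨⟨l, ⟨m, by have := (mem_Icc.1 hm).2; omega⟩, ⟨0, ?_⟩, ⟨0, (mem_Icc.1 hm).1⟩⟩, hl⟩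
      show 0 < (nb (D.F l - D.a l • 1) m).toNat
      omega
  · -- not semisimple
    intro hns
    obtain ⟨l, hl⟩ : ∃ l, D.F l ≠ D.a l • 1 := by
      by_contra hcon
      push Not at hcon
      exact hns (ss_of D hcon)
    have hu : (D.a l)⁻¹ • D.F l ≠ 1 := by
      intro h
      apply hl
      rw [← h, smul_smul, mul_inv_cancel₀ (ha l), one_smul]
    obtain ⟨s, hs2, hsD, hs1⟩ := exists_block _ (nil_scale (ha l) (D.nil l)) hu
    rw [← nb_scale _ (ha l)] at hs1
    have h0 : 0 < (nb (D.F l - D.a l • 1) s).toNat := by omega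
    refine ⟨⟨l, ⟨s, by omega⟩, ⟨0, h0⟩, ⟨0, by show 0 < s; omega⟩⟩,
      ⟨l, ⟨s, by omega⟩, ⟨0, h0⟩, ⟨1, by show 1 < s; omega⟩⟩, rfl, ?_⟩
    show ¬ ((s : ℤ) - 1 - 2 * ((0 : ℕ) : ℤ) = (s : ℤ) - 1 - 2 * ((1 : ℕ) : ℤ))
    omega
  · -- symmetry
    intro c j
    beta_reduce
    rw [hnc, hnc]
    have h1 := card_wt D ha c j
    have h2 := card_wt D ha c (-j)
    have h3 : ∀ m : ℕ, (∑ t ∈ range m, if (m : ℤ) - 1 - 2 * (t : ℤ) = j then (1 : ℤ) else 0) =
      ∑ t ∈ range m, if (m : ℤ) - 1 - 2 * (t : ℤ) = -j then 1 else 0 := fun m => refl_sum m j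
    simp only [h3] at h1
    rw [← h2] at h1
    exact_mod_cast h1
  · -- the same blocks
    intro c c' hcc j
    beta_reduce
    rw [hnc, hnc]
    have h1 := card_wt D ha c j
    have h2 := card_wt D ha c' j
    have h3 : ∀ m, nb (E 0 - c • 1) m = nb (E 0 - c' • 1) m := by
      intro m
      unfold nb
      rw [rk_ker, rk_ker, rk_ker, rk_ker, rk_ker, rk_ker, hcc, hcc, hcc]
    simp only [h3] at h1
    rw [← h2] at h1
    exact_mod_cast h1
  · -- the tensor powers
    intro n c
    beta_reduce
    rw [hnc]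
    by_cases hc : c = 0
    · subst hc
      have h1 : LinearMap.ker (E n - (0 : K) • 1) = ⊥ := by
        rw [zero_smul, sub_zero]
        exact LinearMap.ker_eq_bot.2 (hb n).1
      rw [h1, finrank_bot]
      symm
      rw [card_eq_zero, filter_eq_empty_iff]
      rintro f - ⟨h, -⟩
      exact (prod_ne_zero_iff.2 fun k _ => ha (f k).1) h
    · set B : ℕ := ∑ f : Fin (n + 1) → Ix D, (∑ k, wt D (f k)).natAbs with hB
      have hBf : ∀ f : Fin (n + 1) → Ix D, (∑ k, wt D (f k)).natAbs ≤ B := fun f =>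
        single_le_sum (f := fun f : Fin (n + 1) → Ix D => (∑ k, wt D (f k)).natAbs)
          (fun _ _ => Nat.zero_le _) (mem_univ f)
      have h1 := ker_eq (E n - c • 1) (Module.finrank K (V n) + B + 1) (by omega)
      have h2 : (Module.finrank K (LinearMap.ker (E n - c • 1)) : ℤ) =
          ((univ.filter fun f : Fin (n + 1) → Ix D => ∏ k, D.a (f k).1 = c ∧
            (∑ k, wt D (f k) = 0 ∨ ∑ k, wt D (f k) = 1)).card : ℤ) := by
        have h3 : ∀ m ∈ Icc 1 (Module.finrank K (V n) + B + 1), Af (E n - c • 1) ((m : ℕ) : ℤ) =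
            ∑ f : Fin (n + 1) → Ix D, if ∏ k, D.a (f k).1 = c then
              hh (((m : ℕ) : ℤ) - ∑ k, wt D (f k)) else 0 := fun m _ => key1 n c hc m
        rw [h1, sum_congr rfl h3, sum_comm, card_filter]
        push_cast
        refine sum_congr rfl fun f _ => ?_
        by_cases hf : ∏ k, D.a (f k).1 = c
        · simp only [hf, if_true, true_and]
          refine sum_hh _ _ ?_
          have := hBf f
          rw [Int.abs_eq_natAbs]
          omega
        · simp only [hf, if_false, false_and, sum_const_zero]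
      exact_mod_cast h2

end Pool.Agent.L7h89.PW.Kern
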