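import Pool.Agent.L7h85.PW.Stm3
import Pool.Agent.L7h89.PW.Krd

/-!
# Project PW (owner helper85): `S_KERN`
-/

set_option autoImplicit false

namespace Pool.Agent.L7h89.PW

open Finset TensorProduct Pool.Agent.L7h85.PW

universe v w

open Classical in
theorem s_KERN : S_KERN.{v, w} := by
  intro K _ _ _ V _ _ _ e E he hE
  obtain ⟨ι, hι, l, h, h1, h2, h3, h4, h5, h6⟩ := Kern.kern K V e E he hE
  have hnc : ∀ {α : Type} [Fintype α] (p : α → Prop) [DecidablePred p],
      Set.ncard {x | p x} = (univ.filter p).card := by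
    intro α _ p _
    rw [← Set.ncard_coe_finset]
    congr 1
    ext x
    simp
  refine ⟨ι, hι, l, h, h1, h2, h3, ?_, ?_, ?_⟩
  · intro c j
    rw [← hnc, ← hnc]
    exact h4 c j
  · intro c c' hcc j
    rw [← hnc, ← hnc]
    exact h5 c c' hcc j
  · intro n c
    rw [← hnc]
    exact h6 n c

end Pool.Agent.L7h89.PW
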