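import Pool.Agent.L7h65.RL.Jf

/-!
# Project PW (owner helper85): the Jordan blocks of the tensor powers of an operator, part A
-/

set_option autoImplicit false

namespace Pool.Agent.L7h89.PW.Kern

open TensorProduct Pool.Agent.L7h65.RL

universe v w w'

variable {K : Type v} [Field K]

/-- The decomposition of an operator into generalised eigenspaces. -/
structure Dc {U : Type w} [AddCommGroup U] [Module K U] (E : U →ₗ[K] U) (ι : Type)
    [Fintype ι] where
  a : ι → K
  inj : Function.Injective a
  Z : ι → Submodule K U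
  p : ∀ l, U →ₗ[K] Z l
  q : ∀ l, Z l →ₗ[K] U
  F : ∀ l, Z l →ₗ[K] Z l
  pq : ∀ l z, p l (q l z) = z
  pq0 : ∀ l m z, l ≠ m → p l (q m z) = 0
  sum : ∀ y, ∑ l, q l (p l y) = y
  pE : ∀ l y, p l (E y) = F l (p l y)
  nil : ∀ l, IsNilpotent (F l - (a l) • (1 : Z l →ₗ[K] Z l))
  nt : ∀ l, Nontrivial (Z l)

theorem exists_Dc [IsAlgClosed K] {U : Type w} [AddCommGroup U] [Module K U] [Module.Finite K U]
    (E : U →ₗ[K] U) : ∃ d : ℕ, Nonempty (Dc E (Fin d)) := by
  classical
  have hds := DirectSum.isInternal_submodule_of_iSupIndep_of_iSup_eq_top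
    (Module.End.independent_maxGenEigenspace E) (Module.End.iSup_maxGenEigenspace_eq_top E)
  have h_fin : {μ | Module.End.maxGenEigenspace E μ ≠ ⊥}.Finite :=
    WellFoundedGT.finite_ne_bot_of_iSupIndep (Module.End.independent_maxGenEigenspace E)
  have hds' := DirectSum.isInternal_ne_bot_iff.mpr hds
  let _ : Fintype {μ : K // Module.End.maxGenEigenspace E μ ≠ ⊥} := h_fin.fintype
  let σ : Fin (Fintype.card {μ : K // Module.End.maxGenEigenspace E μ ≠ ⊥}) ≃
    {μ : K // Module.End.maxGenEigenspace E μ ≠ ⊥} := (Fintype.equivFin _).symm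
  let A : Fin (Fintype.card {μ : K // Module.End.maxGenEigenspace E μ ≠ ⊥}) → Submodule K U :=
    fun l => Module.End.maxGenEigenspace E (σ l).1
  have hA : DirectSum.IsInternal A := by
    rw [DirectSum.isInternal_submodule_iff_iSupIndep_and_iSup_eq_top] at hds' ⊢
    refine ⟨hds'.1.comp σ.injective, ?_⟩
    rw [← hds'.2]
    exact σ.iSup_comp (g := fun i : {μ : K // Module.End.maxGenEigenspace E μ ≠ ⊥} =>
      Module.End.maxGenEigenspace E i.1)
  let e : (DirectSum _ fun l => A l) ≃ₗ[K] U := LinearEquiv.ofBijective (DirectSum.coeLinearMap A) hA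
  have he : ∀ l (z : A l), e (DirectSum.lof K _ (fun l => A l) l z) = z := fun l z =>
    DirectSum.coeLinearMap_lof A l z
  have he' : ∀ l (z : A l), e.symm (z : U) = DirectSum.lof K _ (fun l => A l) l z := fun l z => by
    rw [← he, e.symm_apply_apply]
  let p : ∀ l, U →ₗ[K] A l := fun l => DirectSum.component K _ (fun l => A l) l ∘ₗ e.symm.toLinearMap
  have hm : ∀ l, Set.MapsTo E (A l) (A l) := fun l =>
    Module.End.mapsTo_maxGenEigenspace_of_comm (Commute.refl E) _
  have hpq : ∀ l (z : A l), p l (z : U) = z := by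
    intro l z
    show DirectSum.component K _ (fun l => A l) l (e.symm (z : U)) = z
    rw [he', DirectSum.component.lof_self]
  have hpq0 : ∀ l m (z : A m), l ≠ m → p l (z : U) = 0 := by
    intro l m z hlm
    show DirectSum.component K _ (fun l => A l) l (e.symm (z : U)) = 0
    rw [he', DirectSum.component.of, dif_neg (fun h => hlm h.symm)]
  have hsum : ∀ y, ∑ l, ((p l y : A l) : U) = y := by
    intro y
    obtain ⟨x, rfl⟩ := e.surjective y
    induction x using DirectSum.induction_on with
    | zero => simp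
    | of i z =>
      have h1 : e (DirectSum.of (fun l => A l) i z) = (z : U) := he i z
      rw [h1, Finset.sum_eq_single i]
      · rw [hpq]
      · intro m _ hm
        rw [hpq0 m i z hm]
        rfl
      · intro h; exact absurd (Finset.mem_univ i) h
    | add x y hx hy =>
      rw [map_add]
      simp only [map_add, Submodule.coe_add, Finset.sum_add_distrib]
      rw [hx, hy]
  refine ⟨_, ⟨{
    a := fun l => (σ l).1
    inj := fun l m h => σ.injective (Subtype.ext h)
    Z := A
    p := p
    q := fun l => (A l).subtype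
    F := fun l => LinearMap.restrict E (hm l)
    pq := fun l z => hpq l z
    pq0 := fun l m z h => hpq0 l m z h
    sum := fun y => hsum y
    pE := fun l y => by
      have h1 : E y = ∑ m, ((LinearMap.restrict E (hm m) (p m y) : A m) : U) := by
        conv_lhs => rw [← hsum y, map_sum]
        rfl
      rw [h1, map_sum, Finset.sum_eq_single l]
      · rw [hpq]
      · intro m _ hm'
        exact hpq0 l m _ (Ne.symm hm')
      · intro h; exact absurd (Finset.mem_univ l) h
    nil := fun l => by
      have h1 := Module.End.isNilpotent_restrict_maxGenEigenspace_sub_algebraMap E (σ l).1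
      convert h1 using 1
      apply LinearMap.ext
      intro x
      apply Subtype.ext
      exact (by simp [Algebra.algebraMap_eq_smul_one] <;> rfl)
    nt := fun l => by
      rw [Submodule.nontrivial_iff_ne_bot]
      exact (σ l).2 }⟩⟩

section rank

variable {U : Type w} [AddCommGroup U] [Module K U]

/-- additivity of the characters -/
lemma Af_sum {ι : Type} [Fintype ι] {Z : ι → Type w'} [∀ l, AddCommGroup (Z l)]
    [∀ l, Module K (Z l)] (G : U →ₗ[K] U) (H : ∀ l, Z l →ₗ[K] Z l)
    (h : ∀ i : ℕ, rk (G ^ i) = ∑ l, rk (H l ^ i)) (j : ℤ) : Af G j = ∑ l, Af (H l) j := by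
  have h1 := od_lin (Finset.univ : Finset ι) (fun _ => 1) (fun l => nb (H l)) j
  simp only [one_mul] at h1
  unfold Af
  rw [← h1]
  refine od_congr (fun m _ => ?_) j
  unfold nb
  rw [h, h, h]
  push_cast
  rw [Finset.mul_sum, ← Finset.sum_add_distrib, ← Finset.sum_sub_distrib]

lemma rk_Dc [Module.Finite K U] {E : U →ₗ[K] U} {ι : Type} [Fintype ι] [DecidableEq ι]
    (D : Dc E ι) (c : K) (i : ℕ) : rk ((E - c • 1) ^ i) = ∑ l, rk ((D.F l - c • 1) ^ i) := by
  refine rk_add D.p D.q D.pq D.pq0 D.sum ((E - c • 1) ^ i) (fun l => (D.F l - c • 1) ^ i) ?_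
  intro l y
  refine (pow_int (D.p l) (E - c • 1) (D.F l - c • 1) (fun x => ?_) i y).symm
  simp only [LinearMap.sub_apply, LinearMap.smul_apply, Module.End.one_apply, map_sub, map_smul,
    D.pE]

lemma Af_Dc [Module.Finite K U] {E : U →ₗ[K] U} {ι : Type} [Fintype ι] [DecidableEq ι]
    (D : Dc E ι) (c : K) (j : ℤ) : Af (E - c • 1) j = ∑ l, Af (D.F l - c • 1) j :=
  Af_sum _ _ (rk_Dc D c) j

lemma rk_unit {f : U →ₗ[K] U} (hf : IsUnit f) (i : ℕ) : rk (f ^ i) = Module.finrank K U := by
  have h := hf.pow i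
  have h1 := (Module.End.isUnit_iff _).1 h
  unfold rk
  rw [LinearMap.range_eq_top.2 h1.2, finrank_top]

lemma Af_unit {f : U →ₗ[K] U} (hf : IsUnit f) (j : ℤ) : Af f j = 0 := by
  have h1 : ∀ m, 1 ≤ m → nb f m = (fun _ : ℕ => (0 : ℤ)) m := by
    intro m _
    unfold nb
    rw [rk_unit hf, rk_unit hf, rk_unit hf]
    ring
  unfold Af
  rw [od_congr h1]
  unfold od
  split_ifs <;> simp

lemma unit_of_nil {f : U →ₗ[K] U} {a c : K} (hf : IsNilpotent (f - a • 1)) (h : a ≠ c) :
    IsUnit (f - c • 1) := by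
  have e : f - c • 1 = (a - c) • 1 + (f - a • 1) := by
    rw [sub_smul]; abel
  have h0 : a - c ≠ 0 := sub_ne_zero.2 h
  have hu : IsUnit ((a - c) • (1 : U →ₗ[K] U)) := by
    have := (isUnit_one (M := Module.End K U)).smul (Units.mk0 _ h0)
    exact this
  rw [e]
  refine hf.isUnit_add_left_of_commute hu ?_
  show _ * _ = _ * _
  rw [mul_smul_comm, smul_mul_assoc, one_mul, mul_one]

lemma rk_smul {x : K} (hx : x ≠ 0) (f : U →ₗ[K] U) (i : ℕ) : rk ((x • f) ^ i) = rk (f ^ i) := by
  unfold rk
  rw [smul_pow, LinearMap.range_smul _ _ (pow_ne_zero i hx)]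

lemma Af_smul {x : K} (hx : x ≠ 0) (f : U →ₗ[K] U) (j : ℤ) : Af (x • f) j = Af f j := by
  refine od_congr (fun m _ => ?_) j
  unfold nb
  rw [rk_smul hx, rk_smul hx, rk_smul hx]

lemma nb_smul {x : K} (hx : x ≠ 0) (f : U →ₗ[K] U) (m : ℕ) : nb (x • f) m = nb f m := by
  unfold nb
  rw [rk_smul hx, rk_smul hx, rk_smul hx]

end rank

section tensor

variable {U : Type w} [AddCommGroup U] [Module K U] {W : Type w'} [AddCommGroup W] [Module K W]

lemma nil_map (u : U →ₗ[K] U) (w : W →ₗ[K] W) {a b : K} (hu : IsNilpotent (u - a • 1))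
    (hw : IsNilpotent (w - b • 1)) : IsNilpotent (TensorProduct.map u w - (a * b) • 1) := by
  have e : TensorProduct.map u w - (a * b) • 1 = TensorProduct.map (u - a • 1) w +
      TensorProduct.map (a • 1) (w - b • 1) := by
    apply TensorProduct.ext'
    intro x y
    simp only [LinearMap.sub_apply, LinearMap.add_apply, TensorProduct.map_tmul,
      Module.End.one_apply, LinearMap.smul_apply, sub_tmul, tmul_sub, smul_tmul', tmul_smul,
      smul_smul]
    rw [mul_comm b a]
    abel
  rw [e]
  have hm1 : ∀ (a b : U →ₗ[K] U) (c d : W →ₗ[K] W), TensorProduct.map a c * TensorProduct.map b d =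
      TensorProduct.map (a * b) (c * d) := fun a b c d => (TensorProduct.map_comp _ _ _ _).symm
  have hpow : ∀ (a : U →ₗ[K] U) (c : W →ₗ[K] W) (n : ℕ), TensorProduct.map a c ^ n =
      TensorProduct.map (a ^ n) (c ^ n) := fun a c n => (TensorProduct.map_pow _ _ _)
  refine Commute.isNilpotent_add ?_ ?_ ?_
  · show _ * _ = _ * _
    rw [hm1, hm1]
    congr 1
    · rw [mul_smul_comm, smul_mul_assoc, one_mul, mul_one]
    · rw [mul_sub, sub_mul, mul_smul_comm, smul_mul_assoc, one_mul, mul_one]
  · obtain ⟨n, hn⟩ := hu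
    refine ⟨n, ?_⟩
    rw [hpow, hn, TensorProduct.map_zero_left]
  · obtain ⟨n, hn⟩ := hw
    refine ⟨n, ?_⟩
    rw [hpow, hn, TensorProduct.map_zero_right]

lemma Af_tensor [Module.Finite K U] [Module.Finite K W] {E : U →ₗ[K] U} {E' : W →ₗ[K] W}
    {ι ι' : Type} [Fintype ι] [DecidableEq ι] [Fintype ι'] [DecidableEq ι'] (D : Dc E ι)
    (D' : Dc E' ι') (c : K) (j : ℤ) : Af (TensorProduct.map E E' - c • 1) j =
      ∑ l : ι × ι', Af (TensorProduct.map (D.F l.1) (D'.F l.2) - c • 1) j := by
  refine Af_sum _ _ (fun i => ?_) j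
  refine rk_add (fun l : ι × ι' => TensorProduct.map (D.p l.1) (D'.p l.2))
    (fun l => TensorProduct.map (D.q l.1) (D'.q l.2)) ?_ ?_ ?_ _ _ ?_
  · intro l z
    induction z with
    | zero => simp
    | add x y hx hy => rw [map_add, map_add, hx, hy]
    | tmul x y => rw [TensorProduct.map_tmul, TensorProduct.map_tmul, D.pq, D'.pq]
  · intro l m z hlm
    induction z with
    | zero => simp
    | add x y hx hy => rw [map_add, map_add, hx, hy, add_zero]
    | tmul x y =>
      rw [TensorProduct.map_tmul, TensorProduct.map_tmul]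
      by_cases h : l.1 = m.1
      · have h2 : l.2 ≠ m.2 := fun h' => hlm (Prod.ext h h')
        rw [D'.pq0 _ _ _ h2, tmul_zero]
      · rw [D.pq0 _ _ _ h, zero_tmul]
  · intro y
    induction y with
    | zero => simp
    | add x y hx hy =>
      simp only [map_add, Finset.sum_add_distrib]
      rw [hx, hy]
    | tmul x y =>
      simp only [TensorProduct.map_tmul]
      rw [Fintype.sum_prod_type]
      conv_rhs => rw [← D.sum x, ← D'.sum y, sum_tmul]
      exact Finset.sum_congr rfl fun a _ => by rw [tmul_sum]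
  · intro l y
    refine (pow_int (TensorProduct.map (D.p l.1) (D'.p l.2)) (TensorProduct.map E E' - c • 1)
      (TensorProduct.map (D.F l.1) (D'.F l.2) - c • 1) (fun x => ?_) i y).symm
    rw [LinearMap.sub_apply, LinearMap.sub_apply, map_sub, LinearMap.smul_apply,
      LinearMap.smul_apply, map_smul, Module.End.one_apply, Module.End.one_apply]
    congr 1
    induction x with
    | zero => simp
    | add x y hx hy => simp only [map_add, hx, hy]
    | tmul x y => simp only [TensorProduct.map_tmul, D.pE, D'.pE]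

end tensor

end Pool.Agent.L7h89.PW.Kern
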