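import Pool.Agent.L7h89.PW.Kra

/-!
# Project PW (owner helper85): the Jordan blocks of the tensor powers of an operator, part B
-/

set_option autoImplicit false

namespace Pool.Agent.L7h89.PW.Kern

open TensorProduct Pool.Agent.L7h65.RL Finset

universe v w w'

variable {K : Type v} [Field K]

section

variable {U : Type w} [AddCommGroup U] [Module K U]

lemma scale (F : U →ₗ[K] U) {a : K} (ha : a ≠ 0) : F - a • 1 = a • (a⁻¹ • F - 1) := by
  rw [smul_sub, smul_smul, mul_inv_cancel₀ ha, one_smul]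

lemma nil_scale {F : U →ₗ[K] U} {a : K} (ha : a ≠ 0) (h : IsNilpotent (F - a • 1)) :
    IsNilpotent (a⁻¹ • F - 1) := by
  have e : a⁻¹ • F - 1 = a⁻¹ • (F - a • 1) := by
    rw [smul_sub, smul_smul, inv_mul_cancel₀ ha, one_smul]
  rw [e]
  exact h.smul _

lemma nb_scale (F : U →ₗ[K] U) {a : K} (ha : a ≠ 0) : nb (F - a • 1) = nb (a⁻¹ • F - 1) := by
  funext m
  rw [scale F ha, nb_smul ha]

lemma Af_scale (F : U →ₗ[K] U) {a : K} (ha : a ≠ 0) : Af (F - a • 1) = Af (a⁻¹ • F - 1) := by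
  funext m
  rw [scale F ha, Af_smul ha]

variable [Module.Finite K U] {W : Type w'} [AddCommGroup W] [Module K W] [Module.Finite K W]

/-- one block with the eigenvalue `a` -/
lemma Af_block [CharZero K] (F : U →ₗ[K] U) (G : W →ₗ[K] W) {a b c : K} (ha : a ≠ 0)
    (hc : c ≠ 0) (hF : IsNilpotent (F - a • 1)) (hG : IsNilpotent (G - b • 1)) (j : ℤ) :
    Af (TensorProduct.map F G - c • 1) j =
      op (Module.finrank K U) (nb (F - a • 1)) (Af (G - (c / a) • 1)) j := by
  by_cases hb : b = c / a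
  · subst hb
    have hb0 : c / a ≠ 0 := div_ne_zero hc ha
    have e1 : TensorProduct.map F G - c • 1 =
        c • (TensorProduct.map (a⁻¹ • F) ((c / a)⁻¹ • G) - 1) := by
      rw [smul_sub, TensorProduct.map_smul_left, TensorProduct.map_smul_right, smul_smul, smul_smul]
      have : c * a⁻¹ * (c / a)⁻¹ = 1 := by field_simp
      rw [this, one_smul]
    rw [e1, Af_smul hc, Af_map _ (nil_scale ha hF) _ (nil_scale hb0 hG), op_apply, nb_scale F ha,
      Af_scale G hb0]
  · have h1 : Af (G - (c / a) • 1) = 0 := by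
      funext i
      exact Af_unit (unit_of_nil hG hb) i
    rw [h1, map_zero, Pi.zero_apply]
    refine Af_unit (unit_of_nil (nil_map F G hF hG) ?_) j
    intro h
    exact hb (by rw [← h, mul_div_cancel_left₀ _ ha])

open Classical in
lemma Af_one_block [CharZero K] (F : U →ₗ[K] U) {a c : K} (ha : a ≠ 0)
    (hF : IsNilpotent (F - a • 1)) (j : ℤ) :
    Af (F - c • 1) j = if a = c then op (Module.finrank K U) (nb (F - a • 1)) hh j else 0 := by
  split_ifs with h
  · subst h
    rw [Af_scale F ha, Af_self _ (nil_scale ha hF), nb_scale F ha]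
  · exact Af_unit (unit_of_nil hF h) j

/-- the characters of a tensor product -/
theorem key [CharZero K] {E : U →ₗ[K] U} {E' : W →ₗ[K] W} {ι ι' : Type} [Fintype ι]
    [DecidableEq ι] [Fintype ι'] [DecidableEq ι'] (D : Dc E ι) (D' : Dc E' ι')
    (ha : ∀ l, D.a l ≠ 0) {c : K} (hc : c ≠ 0) (j : ℤ) :
    Af (TensorProduct.map E E' - c • 1) j = ∑ l, op (Module.finrank K (D.Z l))
      (nb (D.F l - D.a l • 1)) (Af (E' - (c / D.a l) • 1)) j := by
  rw [Af_tensor D D', Fintype.sum_prod_type]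
  refine sum_congr rfl fun l _ => ?_
  have h1 : Af (E' - (c / D.a l) • 1) = ∑ l', Af (D'.F l' - (c / D.a l) • 1) := by
    funext i
    rw [Finset.sum_apply]
    exact Af_Dc D' _ i
  rw [h1, map_sum, Finset.sum_apply]
  exact sum_congr rfl fun l' _ => Af_block _ _ (ha l) hc (D.nil l) (D'.nil l') j

end

section index

variable {U : Type w} [AddCommGroup U] [Module K U] [Module.Finite K U] {E : U →ₗ[K] U}
  {ι : Type} [Fintype ι] [DecidableEq ι] (D : Dc E ι)

omit [Module.Finite K U] [DecidableEq ι] in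
lemma Eq (l : ι) (z : D.Z l) : E (D.q l z) = D.q l (D.F l z) := by
  classical
  rw [← D.sum (E (D.q l z)), Finset.sum_eq_single l]
  · rw [D.pE, D.pq]
  · intro m _ hm
    rw [D.pE, D.pq0 m l z hm, map_zero, map_zero]
  · intro h; exact absurd (mem_univ l) h

omit [Module.Finite K U] [DecidableEq ι] in
lemma exists_eig (l : ι) : ∃ z : D.Z l, z ≠ 0 ∧ D.F l z = D.a l • z := by
  by_contra hcon
  push Not at hcon
  have hinj : Function.Injective (D.F l - D.a l • (1 : D.Z l →ₗ[K] D.Z l)) := by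
    rw [injective_iff_map_eq_zero]
    intro z hz
    by_contra h0
    apply hcon z h0
    rw [LinearMap.sub_apply, LinearMap.smul_apply, Module.End.one_apply, sub_eq_zero] at hz
    exact hz
  obtain ⟨n, hn⟩ := D.nil l
  have h1 : Function.Injective ((D.F l - D.a l • (1 : D.Z l →ₗ[K] D.Z l)) ^ n) := by
    rw [Module.End.coe_pow]
    exact hinj.iterate n
  have := D.nt l
  obtain ⟨z, hz⟩ := exists_ne (0 : D.Z l)
  apply hz
  apply h1
  rw [hn]
  rfl

omit [Module.Finite K U] [DecidableEq ι] in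
lemma hasEig (l : ι) : Module.End.HasEigenvalue E (D.a l) := by
  obtain ⟨z, hz, h1⟩ := exists_eig D l
  refine Module.End.hasEigenvalue_of_hasEigenvector (x := D.q l z) ⟨?_, ?_⟩
  · rw [Module.End.mem_eigenspace_iff, Eq, h1, map_smul]
  · intro h
    apply hz
    rw [← D.pq l z, h, map_zero]

omit [Module.Finite K U] [DecidableEq ι] in
lemma eig_iff (μ : K) : Module.End.HasEigenvalue E μ ↔ ∃ l, D.a l = μ := by
  constructor
  · intro h
    obtain ⟨y, hy⟩ := h.exists_hasEigenvector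
    have h1 := Module.End.mem_eigenspace_iff.1 hy.1
    by_contra hcon
    push Not at hcon
    apply hy.2
    rw [← D.sum y]
    refine sum_eq_zero fun l _ => ?_
    have h2 := unit_of_nil (D.nil l) (hcon l)
    have h3 := ((Module.End.isUnit_iff _).1 h2).1
    have h4 : D.p l y = 0 := by
      apply h3
      rw [map_zero, LinearMap.sub_apply, ← D.pE, h1, map_smul, LinearMap.smul_apply,
        Module.End.one_apply, sub_self]
    rw [h4, map_zero]
  · rintro ⟨l, rfl⟩
    exact hasEig D l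

omit [Module.Finite K U] [DecidableEq ι] in
lemma a_ne (hE : Function.Injective E) (l : ι) : D.a l ≠ 0 := by
  intro h
  obtain ⟨z, hz, h1⟩ := exists_eig D l
  rw [h, zero_smul] at h1
  apply hz
  rw [← D.pq l z]
  have : D.q l z = 0 := by
    apply hE
    rw [Eq, h1, map_zero, map_zero]
  rw [this, map_zero]

/-- the index set -/
abbrev Ix : Type := Σ l : ι, Σ m : Fin (Module.finrank K (D.Z l) + 1),
  Fin (nb (D.F l - D.a l • 1) m).toNat × Fin (m : ℕ)

/-- the weights -/
def wt (x : Ix D) : ℤ := (x.2.1 : ℕ) - 1 - 2 * ((x.2.2.2 : ℕ) : ℤ)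

lemma nb_nonneg (ha : ∀ l, D.a l ≠ 0) (l : ι) {m : ℕ} (hm : 1 ≤ m) :
    0 ≤ nb (D.F l - D.a l • 1) m := by
  rw [nb_scale _ (ha l)]
  exact (rk_tensor.{0} _ (nil_scale (ha l) (D.nil l))).1 m hm

lemma nb_large (ha : ∀ l, D.a l ≠ 0) (l : ι) {m : ℕ} (hm : Module.finrank K (D.Z l) < m) :
    nb (D.F l - D.a l • 1) m = 0 := by
  rw [nb_scale _ (ha l)]
  exact (rk_tensor.{0} _ (nil_scale (ha l) (D.nil l))).2.1 m hm

lemma nb_sum (ha : ∀ l, D.a l ≠ 0) (l : ι) :
    ∑ m ∈ Icc 1 (Module.finrank K (D.Z l)), nb (D.F l - D.a l • 1) m * m =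
      Module.finrank K (D.Z l) := by
  rw [nb_scale _ (ha l)]
  exact (rk_tensor.{0} _ (nil_scale (ha l) (D.nil l))).2.2.1

/-- sums over the index set -/
lemma sumI (ha : ∀ l, D.a l ≠ 0) (g : ι → ℕ → ℕ → ℤ) :
    ∑ x : Ix D, g x.1 x.2.1 x.2.2.2 = ∑ l, ∑ m ∈ Icc 1 (Module.finrank K (D.Z l)),
      nb (D.F l - D.a l • 1) m * ∑ t ∈ range m, g l m t := by
  rw [Fintype.sum_sigma]
  refine sum_congr rfl fun l _ => ?_
  rw [Fintype.sum_sigma]
  have h1 : ∀ m : Fin (Module.finrank K (D.Z l) + 1),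
      ∑ y : Fin (nb (D.F l - D.a l • 1) m).toNat × Fin (m : ℕ), g l m y.2 =
      ((nb (D.F l - D.a l • 1) (m : ℕ)).toNat : ℤ) * ∑ t ∈ range (m : ℕ), g l m t := by
    intro m
    rw [Fintype.sum_prod_type]
    show ∑ _x : Fin (nb (D.F l - D.a l • 1) m).toNat, ∑ y : Fin (m : ℕ), g l m y = _
    rw [sum_const, card_univ, Fintype.card_fin, nsmul_eq_mul,
      Fin.sum_univ_eq_sum_range (fun t => g l m t)]
  rw [sum_congr rfl fun m _ => h1 m, Fin.sum_univ_eq_sum_range (fun m =>
    ((nb (D.F l - D.a l • 1) m).toNat : ℤ) * ∑ t ∈ range m, g l m t)]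
  symm
  have hsub : Icc 1 (Module.finrank K (D.Z l)) ⊆ range (Module.finrank K (D.Z l) + 1) := by
    intro m hm
    rw [mem_Icc] at hm
    rw [mem_range]
    omega
  rw [← sum_subset hsub fun m hm hm' => ?_]
  · refine sum_congr rfl fun m hm => ?_
    rw [Int.toNat_of_nonneg (nb_nonneg D ha l (mem_Icc.1 hm).1)]
  · have h0 : m = 0 := by
      rw [mem_range] at hm
      rw [mem_Icc] at hm'
      omega
    subst h0
    simp

lemma op_sum (ha : ∀ l, D.a l ≠ 0) (f : ι → ℤ → ℤ) (j : ℤ) :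
    ∑ l, op (Module.finrank K (D.Z l)) (nb (D.F l - D.a l • 1)) (f l) j =
      ∑ x : Ix D, f x.1 (j - wt D x) := by
  refine Eq.trans ?_ (sumI D ha fun l m t => f l (j - ((m : ℤ) - 1 - 2 * (t : ℤ)))).symm
  refine sum_congr rfl fun l _ => ?_
  rw [op_apply]
  refine sum_congr rfl fun m _ => ?_
  congr 1
  refine sum_congr rfl fun t _ => ?_
  congr 1
  ring

end index

end Pool.Agent.L7h89.PW.Kern
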