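import Pool.Agent.L7h89.PW.Krb

/-!
# Project PW (owner helper85): the Jordan blocks of the tensor powers of an operator, part C
-/

set_option autoImplicit false

namespace Pool.Agent.L7h89.PW.Kern

open TensorProduct Pool.Agent.L7h65.RL Finset

universe v w w'

variable {K : Type v} [Field K]

lemma rk_ker {U : Type w} [AddCommGroup U] [Module K U] [Module.Finite K U] (f : U →ₗ[K] U) :
    (rk f : ℤ) = Module.finrank K U - Module.finrank K (LinearMap.ker f) := by
  have := LinearMap.finrank_range_add_finrank_ker f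
  unfold rk
  omega

lemma nb_sum_Icc {U : Type w} [AddCommGroup U] [Module K U] (N : U →ₗ[K] U) (M : ℕ) :
    ∑ m ∈ Icc 1 M, nb N m = (rk (N ^ 0) : ℤ) - rk (N ^ 1) - (rk (N ^ M) - rk (N ^ (M + 1))) := by
  induction M with
  | zero => simp
  | succ M ih =>
    rw [sum_Icc_succ_top (by omega), ih]
    unfold nb
    rw [Nat.add_sub_cancel]
    ring

lemma ker_eq {U : Type w} [AddCommGroup U] [Module K U] [Module.Finite K U] (N : U →ₗ[K] U) (M : ℕ)
    (hM : Module.finrank K U ≤ M) :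
    (Module.finrank K (LinearMap.ker N) : ℤ) = ∑ m ∈ Icc 1 M, Af N m := by
  have h1 : ∑ m ∈ Icc 1 M, Af N m = ∑ m ∈ Icc 1 M, nb N m :=
    sum_congr rfl fun m hm => od_nat _ (mem_Icc.1 hm).1
  have h2 : LinearMap.ker (N ^ M) = LinearMap.ker (N ^ (M + 1)) := by
    rw [Module.End.ker_pow_eq_ker_pow_finrank_of_le hM,
      Module.End.ker_pow_eq_ker_pow_finrank_of_le (hM.trans (Nat.le_succ M))]
  have h3 : (rk (N ^ M) : ℤ) = rk (N ^ (M + 1)) := by
    rw [rk_ker, rk_ker, h2]
  rw [h1, nb_sum_Icc, h3, sub_self, sub_zero, pow_zero, pow_one, rk_one, rk_ker]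
  ring

lemma sum_ind (M : ℕ) (x : ℤ) : ∑ m ∈ Icc 1 M, (if (m : ℤ) = x then (1 : ℤ) else 0) =
    if 1 ≤ x ∧ x ≤ M then 1 else 0 := by
  split_ifs with h
  · rw [sum_eq_single x.toNat]
    · rw [if_pos (by omega)]
    · intro m _ hm
      rw [if_neg (by omega)]
    · intro h'
      exact absurd (mem_Icc.2 ⟨by omega, by omega⟩) h'
  · refine sum_eq_zero fun m hm => ?_
    rw [mem_Icc] at hm
    rw [if_neg (by omega)]

lemma sum_hh (M : ℕ) (s : ℤ) (h : |s| + 1 ≤ M) :
    ∑ m ∈ Icc 1 M, hh ((m : ℤ) - s) = if s = 0 ∨ s = 1 then 1 else 0 := by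
  have h1 : ∀ m : ℕ, hh ((m : ℤ) - s) = (if (m : ℤ) = s + 1 then (1 : ℤ) else 0) -
      (if (m : ℤ) = s - 1 then (1 : ℤ) else 0) := by
    intro m
    unfold hh
    congr 1
    · exact if_congr (by omega) rfl rfl
    · exact if_congr (by omega) rfl rfl
  simp only [h1]
  rw [sum_sub_distrib, sum_ind, sum_ind]
  have h2 := le_abs_self s
  have h3 := neg_abs_le s
  split_ifs <;> omega

section

variable {U : Type w} [AddCommGroup U] [Module K U] [Module.Finite K U] {E : U →ₗ[K] U}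
  {ι : Type} [Fintype ι] [DecidableEq ι] (D : Dc E ι)

open Classical in
lemma base [CharZero K] (ha : ∀ l, D.a l ≠ 0) (c : K) (j : ℤ) :
    Af (E - c • 1) j = ∑ x : Ix D, if D.a x.1 = c then hh (j - wt D x) else 0 := by
  rw [Af_Dc D]
  have h1 := op_sum D ha (fun l i => if D.a l = c then hh i else 0) j
  rw [← h1]
  refine sum_congr rfl fun l _ => ?_
  rw [Af_one_block _ (ha l) (D.nil l)]
  split_ifs with h
  · rfl
  · rw [op_apply]
    simp

/-- the number of the blocks -/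
lemma nb_Dc (c : K) (m : ℕ) : nb (E - c • 1) m = ∑ l, nb (D.F l - c • 1) m := by
  unfold nb
  rw [rk_Dc D, rk_Dc D, rk_Dc D]
  push_cast
  rw [Finset.mul_sum, ← Finset.sum_add_distrib, ← Finset.sum_sub_distrib]

lemma finrank_Dc : Module.finrank K U = ∑ l, Module.finrank K (D.Z l) := by
  have := rk_Dc D 0 0
  simp only [pow_zero, rk_one] at this
  exact this

lemma finrank_le (l : ι) : Module.finrank K (D.Z l) ≤ Module.finrank K U :=
  Submodule.finrank_le _

lemma nb_unit {f : U →ₗ[K] U} (hf : IsUnit f) (m : ℕ) : nb f m = 0 := by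
  unfold nb
  rw [rk_unit hf, rk_unit hf, rk_unit hf]
  ring

open Classical in
/-- the number of the weights -/
lemma card_wt (ha : ∀ l, D.a l ≠ 0) (c : K) (j : ℤ) :
    ((univ.filter fun x : Ix D => D.a x.1 = c ∧ wt D x = j).card : ℤ) =
      ∑ m ∈ Icc 1 (Module.finrank K U), nb (E - c • 1) m *
        ∑ t ∈ range m, if (m : ℤ) - 1 - 2 * (t : ℤ) = j then 1 else 0 := by
  rw [card_filter]
  push_cast
  have h1 := sumI D ha (fun l m t => if D.a l = c ∧ (m : ℤ) - 1 - 2 * (t : ℤ) = j then 1 else 0)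
  refine Eq.trans h1 ?_
  have h2 : ∀ m : ℕ, nb (E - c • 1) m *
        (∑ t ∈ range m, if (m : ℤ) - 1 - 2 * (t : ℤ) = j then 1 else 0) =
      ∑ l, nb (D.F l - c • 1) m *
        (∑ t ∈ range m, if (m : ℤ) - 1 - 2 * (t : ℤ) = j then 1 else 0) := fun m => by
    rw [nb_Dc D, sum_mul]
  rw [sum_congr rfl fun m _ => h2 m, sum_comm]
  refine sum_congr rfl fun l _ => ?_
  have hsub : Icc 1 (Module.finrank K (D.Z l)) ⊆ Icc 1 (Module.finrank K U) :=
    Icc_subset_Icc le_rfl (finrank_le D l)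
  by_cases h : D.a l = c
  · subst h
    rw [← sum_subset hsub fun m hm hm' => ?_]
    · refine sum_congr rfl fun m _ => ?_
      simp
    · rw [nb_large D ha l, zero_mul]
      rw [mem_Icc] at hm hm'
      omega
  · have h3 : ∀ m, nb (D.F l - c • 1) m = 0 := fun m => nb_unit (unit_of_nil (D.nil l) h) m
    simp [h, h3]

end

/-- reflection -/
lemma refl_sum (m : ℕ) (j : ℤ) :
    (∑ t ∈ range m, if (m : ℤ) - 1 - 2 * (t : ℤ) = j then (1 : ℤ) else 0) =
      ∑ t ∈ range m, if (m : ℤ) - 1 - 2 * (t : ℤ) = -j then 1 else 0 := by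
  rw [← sum_range_reflect]
  refine sum_congr rfl fun t ht => if_congr ?_ rfl rfl
  rw [mem_range] at ht
  omega

end Pool.Agent.L7h89.PW.Kern
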